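import Pool.Agent.H992.PM.Defs

/-!
# From polynomials to trigonometric sums (S_PT)
-/

set_option autoImplicit false
open MeasureTheory Filter Topology Complex ProbabilityTheory
open scoped ContDiff ENNReal

namespace Pool.Agent.H962.PM

open Pool.Agent.W745.RW (TF)
open Pool.Agent.N661.BR (MW IsRandomWave lin)
open Pool.Agent.N661.BH (loc)
open Pool.Agent.N814.BHM (P mass)
open Pool.Agent.N814.BHASM (Hyp X mpos probP)
open Pool.Agent.H992.LB (eγ eX nn nn_nonneg val pt SX val_lin sum_pt Q_eq eX_meas eX_norm val_meas)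
open Pool.Agent.H992.PM

theorem tayl (N : ℕ) : ∀ x : ℝ, ‖Complex.exp (I * (x : ℂ)) -
    ∑ j ∈ Finset.range N, (I * (x : ℂ)) ^ j / (j.factorial : ℂ)‖ ≤ |x| ^ N / N.factorial := by
  induction N with
  | zero =>
    intro x
    rw [Finset.range_zero, Finset.sum_empty, sub_zero, mul_comm, Complex.norm_exp_ofReal_mul_I]
    simp
  | succ N ih =>
    intro x
    have hd : ∀ s : ℝ, HasDerivAt (fun s : ℝ => Complex.exp (I * ((s * x : ℝ) : ℂ)) -
        ∑ j ∈ Finset.range (N + 1), (I * ((s * x : ℝ) : ℂ)) ^ j / (j.factorial : ℂ))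
        (I * (x : ℂ) * (Complex.exp (I * ((s * x : ℝ) : ℂ)) -
          ∑ j ∈ Finset.range N, (I * ((s * x : ℝ) : ℂ)) ^ j / (j.factorial : ℂ))) s := by
      intro s
      have h0 : HasDerivAt (fun s : ℝ => I * ((s * x : ℝ) : ℂ)) (I * (x : ℂ)) s := by
        have h1 : HasDerivAt (fun s : ℝ => s * x) x s := by
          have := (hasDerivAt_id s).mul_const x
          rwa [one_mul] at this
        exact (h1.ofReal_comp).const_mul I
      have h1 := h0.cexp
      have h2 : HasDerivAt (fun s : ℝ => ∑ j ∈ Finset.range N,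
          (I * ((s * x : ℝ) : ℂ)) ^ (j + 1) / ((j + 1).factorial : ℂ))
          (∑ j ∈ Finset.range N, (I * ((s * x : ℝ) : ℂ)) ^ j / (j.factorial : ℂ) * (I * x)) s := by
        refine HasDerivAt.fun_sum fun j _ => ?_
        have h3 := (h0.pow (j + 1)).div_const ((j + 1).factorial : ℂ)
        refine h3.congr_deriv ?_
        have h4 : (j.factorial : ℂ) ≠ 0 := by exact_mod_cast j.factorial_ne_zero
        have h5 : ((j : ℂ) + 1) ≠ 0 := by exact_mod_cast j.succ_ne_zero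
        rw [Nat.factorial_succ, Nat.add_sub_cancel]
        push_cast
        field_simp
      have h3 := h1.sub (h2.add_const ((I * ((0 : ℝ) : ℂ)) ^ 0 / ((0 : ℕ).factorial : ℂ)))
      have h4 : (fun s : ℝ => Complex.exp (I * ((s * x : ℝ) : ℂ)) -
          ∑ j ∈ Finset.range (N + 1), (I * ((s * x : ℝ) : ℂ)) ^ j / (j.factorial : ℂ)) =
          fun s : ℝ => Complex.exp (I * ((s * x : ℝ) : ℂ)) - (∑ j ∈ Finset.range N,
          (I * ((s * x : ℝ) : ℂ)) ^ (j + 1) / ((j + 1).factorial : ℂ) +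
            (I * ((0 : ℝ) : ℂ)) ^ 0 / ((0 : ℕ).factorial : ℂ)) := by
        funext s
        rw [Finset.sum_range_succ']
        simp only [pow_zero]
      rw [h4]
      refine h3.congr_deriv ?_
      rw [← Finset.sum_mul]
      ring
    have hc : Continuous fun s : ℝ => I * (x : ℂ) * (Complex.exp (I * ((s * x : ℝ) : ℂ)) -
        ∑ j ∈ Finset.range N, (I * ((s * x : ℝ) : ℂ)) ^ j / (j.factorial : ℂ)) := by
      have hc0 : Continuous fun s : ℝ => I * ((s * x : ℝ) : ℂ) := by fun_prop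
      refine continuous_const.mul (((Complex.continuous_exp.comp hc0)).sub ?_)
      exact continuous_finsetSum _ fun j _ => (hc0.pow j).div_const _
    have h1 := intervalIntegral.integral_eq_sub_of_hasDerivAt (a := (0:ℝ)) (b := 1)
      (fun s _ => hd s) (hc.intervalIntegrable _ _)
    have h0 : Complex.exp (I * (((0:ℝ) * x : ℝ) : ℂ)) -
        ∑ j ∈ Finset.range (N + 1), (I * (((0:ℝ) * x : ℝ) : ℂ)) ^ j / (j.factorial : ℂ) = 0 := by
      rw [Finset.sum_range_succ', zero_mul, Complex.ofReal_zero, mul_zero, Complex.exp_zero]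
      rw [Finset.sum_eq_zero (fun j _ => by rw [zero_pow (Nat.succ_ne_zero j), zero_div])]
      simp
    rw [h0, sub_zero, one_mul] at h1
    rw [← h1]
    have h2 : ‖∫ s in (0:ℝ)..1, I * (x : ℂ) * (Complex.exp (I * ((s * x : ℝ) : ℂ)) -
        ∑ j ∈ Finset.range N, (I * ((s * x : ℝ) : ℂ)) ^ j / (j.factorial : ℂ))‖ ≤
        ∫ s in (0:ℝ)..1, |x| ^ (N + 1) / N.factorial * s ^ N := by
      refine intervalIntegral.norm_integral_le_of_norm_le zero_le_one
        (Eventually.of_forall fun s hs => ?_)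
        ((continuous_const.mul (continuous_id.pow N)).intervalIntegrable _ _)
      rw [norm_mul, norm_mul, Complex.norm_I, one_mul, Complex.norm_real, Real.norm_eq_abs]
      have h3 := ih (s * x)
      calc |x| * ‖Complex.exp (I * ((s * x : ℝ) : ℂ)) -
            ∑ j ∈ Finset.range N, (I * ((s * x : ℝ) : ℂ)) ^ j / (j.factorial : ℂ)‖
          ≤ |x| * (|s * x| ^ N / N.factorial) := by gcongr
        _ = |x| ^ (N + 1) / N.factorial * s ^ N := by
          rw [abs_mul, abs_of_pos hs.1, mul_pow]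
          ring
    refine h2.trans (le_of_eq ?_)
    rw [intervalIntegral.integral_const_mul, integral_pow, Nat.factorial_succ]
    push_cast
    have h4 : (N.factorial : ℝ) ≠ 0 := by exact_mod_cast N.factorial_ne_zero
    have h5 : ((N : ℝ) + 1) ≠ 0 := by positivity
    rw [one_pow, zero_pow (Nat.succ_ne_zero N)]
    field_simp
    ring

theorem gs (v : NNReal) (N : ℕ) : Integrable (fun x : ℝ => x ^ (2 * N)) (gaussianReal 0 v) ∧
    ∫ x, x ^ (2 * N) ∂(gaussianReal 0 v) ≤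
      (N.factorial : ℝ) ^ 2 * (2 * Real.exp (8 * v) / 4 ^ N) := by
  have hi : Integrable (fun x : ℝ => x ^ (2 * N)) (gaussianReal 0 v) := by
    have h2 : MemLp (id : ℝ → ℝ) ((2 * N : ℕ) : ℝ≥0∞) (gaussianReal 0 v) := by
      have := memLp_id_gaussianReal (μ := 0) (v := v) ((2 * N : ℕ) : NNReal)
      exact_mod_cast this
    rcases Nat.eq_zero_or_pos N with h0 | h0
    · rw [h0]
      simp
    · have h3 := h2.integrable_norm_pow (by omega)
      refine h3.congr (Eventually.of_forall fun x => ?_)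
      show ‖x‖ ^ (2 * N) = x ^ (2 * N)
      rw [pow_mul, pow_mul, Real.norm_eq_abs, sq_abs]
  refine ⟨hi, ?_⟩
  have h1 : ∀ x : ℝ, x ^ (2 * N) ≤ ((2 * N).factorial : ℝ) / 16 ^ N *
      (Real.exp (4 * x) + Real.exp (-4 * x)) := by
    intro x
    have h2 := Real.pow_div_factorial_le_exp (|4 * x|) (abs_nonneg _) (2 * N)
    have h3 : |4 * x| ^ (2 * N) = 16 ^ N * x ^ (2 * N) := by
      rw [pow_mul, sq_abs, mul_pow, mul_pow, pow_mul]
      norm_num
    have h4 : Real.exp |4 * x| ≤ Real.exp (4 * x) + Real.exp (-4 * x) := by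
      rcases abs_cases (4 * x) with ⟨h, _⟩ | ⟨h, _⟩
      · rw [h]
        linarith [Real.exp_pos (-4 * x)]
      · rw [h, show -(4 * x) = -4 * x by ring]
        linarith [Real.exp_pos (4 * x)]
    have h5 : (0:ℝ) < (2 * N).factorial := by exact_mod_cast Nat.factorial_pos _
    rw [h3, div_le_iff₀ h5] at h2
    have h6 : (0:ℝ) < 16 ^ N := by positivity
    rw [div_mul_eq_mul_div, le_div_iff₀ h6]
    calc x ^ (2 * N) * 16 ^ N = 16 ^ N * x ^ (2 * N) := by ring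
      _ ≤ Real.exp |4 * x| * (2 * N).factorial := h2
      _ ≤ (Real.exp (4 * x) + Real.exp (-4 * x)) * (2 * N).factorial := by gcongr
      _ = _ := by ring
  have h2 : ∀ t : ℝ, ∫ x, Real.exp (t * x) ∂(gaussianReal 0 v) = Real.exp (v * t ^ 2 / 2) := by
    intro t
    have := congrFun (mgf_id_gaussianReal (μ := 0) (v := v)) t
    rw [zero_mul, zero_add] at this
    exact this
  have hi4 : ∀ t : ℝ, Integrable (fun x : ℝ => Real.exp (t * x)) (gaussianReal 0 v) :=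
    fun t => integrable_exp_mul_gaussianReal t
  have h3 : ∫ x, x ^ (2 * N) ∂(gaussianReal 0 v) ≤ ∫ x, ((2 * N).factorial : ℝ) / 16 ^ N *
      (Real.exp (4 * x) + Real.exp (-4 * x)) ∂(gaussianReal 0 v) :=
    integral_mono hi (((hi4 4).add (hi4 (-4))).const_mul _) h1
  have h4 : ∫ x, ((2 * N).factorial : ℝ) / 16 ^ N * (Real.exp (4 * x) + Real.exp (-4 * x))
      ∂(gaussianReal 0 v) = ((2 * N).factorial : ℝ) / 16 ^ N * (2 * Real.exp (8 * v)) := by
    rw [integral_const_mul, integral_add (hi4 4) (hi4 (-4)), h2, h2]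
    congr 1
    rw [show (v : ℝ) * 4 ^ 2 / 2 = 8 * v by ring, show (v : ℝ) * (-4) ^ 2 / 2 = 8 * v by ring]
    ring
  have h5 : ((2 * N).factorial : ℝ) ≤ 4 ^ N * (N.factorial : ℝ) ^ 2 := by
    have h6 := Nat.add_choose_mul_factorial_mul_factorial N N
    have h7 : (N + N).choose N ≤ 2 ^ (N + N) := Nat.choose_le_two_pow _ _
    have h8 : (2 * N).factorial ≤ 4 ^ N * N.factorial ^ 2 := by
      rw [two_mul, ← h6, mul_assoc, ← sq]
      refine Nat.mul_le_mul_right _ (h7.trans (le_of_eq ?_))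
      rw [← two_mul, pow_mul]
      norm_num
    exact_mod_cast h8
  refine h3.trans ?_
  rw [h4]
  calc ((2 * N).factorial : ℝ) / 16 ^ N * (2 * Real.exp (8 * v))
      ≤ 4 ^ N * (N.factorial : ℝ) ^ 2 / 16 ^ N * (2 * Real.exp (8 * v)) := by gcongr
    _ = _ := by
      rw [show (16:ℝ) ^ N = 4 ^ N * 4 ^ N by rw [← mul_pow]; norm_num]
      have : (4:ℝ) ^ N ≠ 0 := by positivity
      field_simp

theorem gv {γ : Measure MW} (hγ : IsRandomWave γ) (τ : ℂ →₀ ℝ) (N : ℕ) :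
    Integrable (fun f => val τ f ^ (2 * N)) γ ∧ ∫ f, val τ f ^ (2 * N) ∂γ ≤
      (N.factorial : ℝ) ^ 2 * (2 * Real.exp (8 * nn τ) / 4 ^ N) := by
  have h1 := hγ _ (pt τ) (fun j => τ (pt τ j))
  have h0 : (∑ i, ∑ j, (fun j => τ (pt τ j)) i * (fun j => τ (pt τ j)) j *
      Pool.Agent.N661.BR.J0 ‖pt τ i - pt τ j‖) = nn τ := Q_eq τ
  rw [h0] at h1
  obtain ⟨h3, h4⟩ := gs (nn τ).toNNReal N
  rw [← h1] at h3 h4
  rw [integrable_map_measure (by fun_prop)
    (Pool.Agent.N661.BR.meas_lin _ _).aemeasurable] at h3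
  rw [integral_map (Pool.Agent.N661.BR.meas_lin _ _).aemeasurable (by fun_prop),
    Real.coe_toNNReal _ (nn_nonneg τ)] at h4
  have h6 : val τ = lin (pt τ) (fun j => τ (pt τ j)) := funext (val_lin τ)
  rw [h6]
  exact ⟨h3, h4⟩

section alg

variable {n K : ℕ} (c : Fin n → ℂ) (L : Fin n → MvPolynomial (Fin K) ℝ)

/-- the real part -/
noncomputable def PR (N : ℕ) : MvPolynomial (Fin K) ℝ :=
  ∑ m, ∑ j ∈ Finset.range N, MvPolynomial.C ((c m * I ^ j / (j.factorial : ℂ)).re) * L m ^ j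

/-- the imaginary part -/
noncomputable def PJ (N : ℕ) : MvPolynomial (Fin K) ℝ :=
  ∑ m, ∑ j ∈ Finset.range N, MvPolynomial.C ((c m * I ^ j / (j.factorial : ℂ)).im) * L m ^ j

/-- the Taylor polynomial -/
noncomputable def PN (N : ℕ) (y : Fin n → ℝ) : ℂ :=
  ∑ m, c m * ∑ j ∈ Finset.range N, (I * (y m : ℂ)) ^ j / (j.factorial : ℂ)

/-- the trigonometric sum -/
noncomputable def TT (y : Fin n → ℝ) : ℂ := ∑ m, c m * Complex.exp (I * (y m : ℂ))

theorem PN_eq (N : ℕ) (x : Fin K → ℝ) : PN c N (fun m => MvPolynomial.eval x (L m)) =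
    ((MvPolynomial.eval x (PR c L N) : ℝ) : ℂ) +
      ((MvPolynomial.eval x (PJ c L N) : ℝ) : ℂ) * I := by
  unfold PN PR PJ
  simp only [map_sum, map_mul, map_pow, MvPolynomial.eval_C]
  push_cast
  rw [Finset.sum_mul, ← Finset.sum_add_distrib]
  refine Finset.sum_congr rfl fun m _ => ?_
  rw [Finset.sum_mul, ← Finset.sum_add_distrib, Finset.mul_sum]
  refine Finset.sum_congr rfl fun j _ => ?_
  have h := Complex.re_add_im (c m * I ^ j / (j.factorial : ℂ))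
  calc c m * ((I * ((MvPolynomial.eval x (L m) : ℝ) : ℂ)) ^ j / (j.factorial : ℂ))
      = (c m * I ^ j / (j.factorial : ℂ)) * ((MvPolynomial.eval x (L m) : ℝ) : ℂ) ^ j := by
        rw [mul_pow]
        ring
    _ = (((c m * I ^ j / (j.factorial : ℂ)).re : ℂ) + ((c m * I ^ j / (j.factorial : ℂ)).im : ℂ) * I) *
        ((MvPolynomial.eval x (L m) : ℝ) : ℂ) ^ j := by rw [h]
    _ = _ := by ring

theorem TT_sub (N : ℕ) (y : Fin n → ℝ) : ‖TT c y - PN c (2 * N) y‖ ≤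
    ∑ m, ‖c m‖ / (2 * N).factorial * y m ^ (2 * N) := by
  unfold TT PN
  rw [← Finset.sum_sub_distrib]
  refine norm_sum_le_of_le _ fun m _ => ?_
  rw [← mul_sub, norm_mul]
  have h := tayl (2 * N) (y m)
  rw [pow_mul, sq_abs, ← pow_mul] at h
  calc ‖c m‖ * ‖_‖ ≤ ‖c m‖ * (y m ^ (2 * N) / (2 * N).factorial) := by gcongr
    _ = _ := by ring

theorem sq_TT (N : ℕ) (y : Fin n → ℝ) : ‖TT c y - PN c (2 * N) y‖ ^ 2 ≤
    ∑ m, n * (‖c m‖ ^ 2 / ((2 * N).factorial : ℝ) ^ 2) * y m ^ (2 * (2 * N)) := by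
  have h := pow_le_pow_left₀ (norm_nonneg _) (TT_sub c N y) 2
  refine h.trans ((sq_sum_le_card_mul_sum_sq).trans (le_of_eq ?_))
  rw [Finset.mul_sum, Finset.card_univ, Fintype.card_fin]
  refine Finset.sum_congr rfl fun m _ => ?_
  rw [mul_pow, div_pow, ← pow_mul, mul_comm (2 * N) 2]
  ring

end alg

theorem iv {γ : Measure MW} [IsProbabilityMeasure γ] (hγ : IsRandomWave γ) (τ : ℂ →₀ ℝ) (j : ℕ) :
    MemLp (fun f => val τ f ^ j) 2 γ := by
  have h := (gv hγ τ j).1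
  have hm : AEStronglyMeasurable (fun f => val τ f ^ j) γ :=
    ((val_meas τ).pow_const j).aestronglyMeasurable
  rw [memLp_two_iff_integrable_sq hm]
  refine h.congr (Eventually.of_forall fun f => ?_)
  show val τ f ^ (2 * j) = (val τ f ^ j) ^ 2
  rw [← pow_mul, mul_comm]

theorem ip {γ : Measure MW} [IsProbabilityMeasure γ] (hγ : IsRandomWave γ) {n : ℕ}
    (τ : Fin n → ℂ →₀ ℝ) (N : ℕ) (a : Fin n → ℕ → ℝ) :
    MemLp (fun f => ∑ m, ∑ j ∈ Finset.range N, a m j * val (τ m) f ^ j) 2 γ :=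
  memLp_finsetSum _ fun m _ => memLp_finsetSum _ fun j _ => (iv hγ (τ m) j).const_mul _

theorem pt (h1 : S_PB) (_h2 : S_GM) : S_PT := by
  intro Ω lam u H γ hγp hγ ψ hψ h0 U hPB
  obtain ⟨C, hC⟩ := hPB
  have := probP H
  have hm := mpos H
  obtain ⟨C₁, hC₁⟩ : ∃ C₁ : ℝ, C₁ = |C| / mass Ω ^ 2 := ⟨_, rfl⟩
  have hC0 : 0 ≤ C₁ := by rw [hC₁]; positivity
  have key : ∀ (k : ℕ) (w : Fin k → ℂ) (Q : MvPolynomial (Fin k) ℝ), (∀ j, w j ∈ U) →
      ∀ ε : ℝ, 0 < ε → ∀ᶠ l in atTop,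
        Integrable (fun p => ψ p.1 *
          MvPolynomial.eval (fun j => Xr (lam l) (u l) (w j) p) Q) (P Ω) ∧
        (∫ p, ψ p.1 * MvPolynomial.eval (fun j => Xr (lam l) (u l) (w j) p) Q ∂(P Ω)) ^ 2 ≤
          C₁ * (∫ f : MW, MvPolynomial.eval (fun j => f (w j)) Q ^ 2 ∂γ) + ε := by
    intro k w Q hw ε hε
    filter_upwards [hC k w Q hw (ε * mass Ω ^ 2) (by positivity),
      h1 Ω lam u H ψ hψ k w Q] with l a b
    refine ⟨b.1, ?_⟩
    rw [b.2, mul_pow] at a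
    have hE : 0 ≤ ∫ f : MW, MvPolynomial.eval (fun j => f (w j)) Q ^ 2 ∂γ :=
      integral_nonneg fun f => sq_nonneg _
    have h3 : C * (∫ f : MW, MvPolynomial.eval (fun j => f (w j)) Q ^ 2 ∂γ) ≤
        |C| * (∫ f : MW, MvPolynomial.eval (fun j => f (w j)) Q ^ 2 ∂γ) :=
      mul_le_mul_of_nonneg_right (le_abs_self C) hE
    have h4 : (0 : ℝ) < mass Ω ^ 2 := by positivity
    rw [hC₁]
    have h5 : |C| / mass Ω ^ 2 * (∫ f : MW, MvPolynomial.eval (fun j => f (w j)) Q ^ 2 ∂γ) + ε =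
        (|C| * (∫ f : MW, MvPolynomial.eval (fun j => f (w j)) Q ^ 2 ∂γ) + ε * mass Ω ^ 2) /
          mass Ω ^ 2 := by
      field_simp
    rw [h5, le_div_iff₀ h4]
    linarith
  refine ⟨4 * C₁, fun n c τ hτ ε hε => ?_⟩
  classical
  obtain ⟨S, hS⟩ : ∃ S : Finset ℂ, S = Finset.univ.biUnion (fun m => (τ m).support) := ⟨_, rfl⟩
  obtain ⟨w, hwd⟩ : ∃ w : Fin S.card → ℂ, w = fun j => ((S.equivFin.symm j : S) : ℂ) := ⟨_, rfl⟩
  have hw : ∀ j, w j ∈ U := by
    intro j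
    have h3 := (S.equivFin.symm j).2
    rw [hwd]
    have h4 : ((S.equivFin.symm j : S) : ℂ) ∈ Finset.univ.biUnion (fun m => (τ m).support) := by
      rw [← hS]
      exact h3
    obtain ⟨m, -, hm2⟩ := Finset.mem_biUnion.1 h4
    exact hτ m hm2
  obtain ⟨L, hLd⟩ : ∃ L : Fin n → MvPolynomial (Fin S.card) ℝ, L = fun m =>
      ∑ j, MvPolynomial.C (τ m (w j)) * MvPolynomial.X j := ⟨_, rfl⟩
  have hL : ∀ (x : ℂ → ℝ) (m : Fin n), MvPolynomial.eval (fun j => x (w j)) (L m) =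
      (τ m).sum (fun v t => t * x v) := by
    intro x m
    rw [hLd]
    simp only [map_sum, map_mul, MvPolynomial.eval_C, MvPolynomial.eval_X]
    have h3 : (τ m).support ⊆ S := by
      rw [hS]
      exact Finset.subset_biUnion_of_mem (fun m => (τ m).support) (Finset.mem_univ m)
    rw [Finsupp.sum_of_support_subset (τ m) h3 _ (fun _ _ => by rw [zero_mul]),
      ← Finset.sum_coe_sort S, ← Equiv.sum_comp S.equivFin.symm, hwd]
  have hX : ∀ (l : ℕ) (p : ℂ × (ℝ × Bool)) (m : Fin n),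
      MvPolynomial.eval (fun j => Xr (lam l) (u l) (w j) p) (L m) =
        (SX (lam l) (u l) (τ m) p).re := by
    intro l p m
    rw [hL (fun v => Xr (lam l) (u l) v p) m]
    unfold SX Finsupp.sum Xr
    rw [Complex.re_sum]
    refine Finset.sum_congr rfl fun v _ => ?_
    rw [Complex.re_ofReal_mul]
  have hV : ∀ (f : MW) (m : Fin n), MvPolynomial.eval (fun j => f (w j)) (L m) = val (τ m) f :=
    fun f m => hL (fun v => f v) m
  -- the choice of the degree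
  obtain ⟨K0, hK0⟩ : ∃ K0 : ℝ, K0 = ∑ m, (n : ℝ) * ‖c m‖ ^ 2 * (2 * Real.exp (8 * nn (τ m))) :=
    ⟨_, rfl⟩
  have hK00 : 0 ≤ K0 := by
    rw [hK0]
    exact Finset.sum_nonneg fun m _ => by positivity
  obtain ⟨η, hη⟩ : ∃ η : ℝ, η = ε / (12 * C₁ + 1) := ⟨_, rfl⟩
  have hη0 : 0 < η := by rw [hη]; positivity
  obtain ⟨N, hN⟩ := pow_unbounded_of_one_lt (K0 / η) (by norm_num : (1:ℝ) < 16)
  obtain ⟨F, hF⟩ : ∃ F : ℝ, F = ((2 * N).factorial : ℝ) := ⟨_, rfl⟩
  have hF0 : 0 < F := by rw [hF]; exact_mod_cast Nat.factorial_pos _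
  obtain ⟨Δ, hΔ⟩ : ∃ Δ : ℝ, Δ = ∑ m, n * (‖c m‖ ^ 2 / F ^ 2) *
      ∫ f, val (τ m) f ^ (2 * (2 * N)) ∂γ := ⟨_, rfl⟩
  have hΔ0 : 0 ≤ Δ := by
    rw [hΔ]
    refine Finset.sum_nonneg fun m _ => mul_nonneg (by positivity) (integral_nonneg fun f => ?_)
    show 0 ≤ val (τ m) f ^ (2 * (2 * N))
    rw [pow_mul]
    positivity
  have hΔη : Δ ≤ η := by
    have h3 : Δ ≤ K0 / 16 ^ N := by
      rw [hΔ, hK0, Finset.sum_div]
      refine Finset.sum_le_sum fun m _ => ?_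
      have h4 := (gv hγ (τ m) (2 * N)).2
      rw [← hF] at h4
      calc n * (‖c m‖ ^ 2 / F ^ 2) * ∫ f, val (τ m) f ^ (2 * (2 * N)) ∂γ
          ≤ n * (‖c m‖ ^ 2 / F ^ 2) * (F ^ 2 * (2 * Real.exp (8 * nn (τ m)) / 4 ^ (2 * N))) := by
            gcongr
        _ = _ := by
            rw [pow_mul]
            have : (4:ℝ) ^ 2 = 16 := by norm_num
            rw [this]
            field_simp
    refine h3.trans ?_
    have h4 : (0:ℝ) < 16 ^ N := by positivity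
    rw [div_le_iff₀ h4]
    rw [div_lt_iff₀ hη0] at hN
    linarith
  -- the real polynomials
  obtain ⟨R, hR⟩ : ∃ R, R = PR c L (2 * N) := ⟨_, rfl⟩
  obtain ⟨J, hJ⟩ : ∃ J, J = PJ c L (2 * N) := ⟨_, rfl⟩
  have eRJ : ∀ x : Fin S.card → ℝ, PN c (2 * N) (fun m => MvPolynomial.eval x (L m)) =
      ((MvPolynomial.eval x R : ℝ) : ℂ) + ((MvPolynomial.eval x J : ℝ) : ℂ) * I := by
    intro x
    rw [hR, hJ]
    exact PN_eq c L (2 * N) x
  have mR : MemLp (fun f : MW => MvPolynomial.eval (fun j => f (w j)) R) 2 γ := by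
    have h3 := ip hγ τ (2 * N) (fun m j => (c m * I ^ j / (j.factorial : ℂ)).re)
    have h4 : (fun f : MW => MvPolynomial.eval (fun j => f (w j)) R) = fun f =>
        ∑ m, ∑ j ∈ Finset.range (2 * N), (c m * I ^ j / (j.factorial : ℂ)).re * val (τ m) f ^ j := by
      funext f
      rw [hR]
      unfold PR
      simp only [map_sum, map_mul, map_pow, MvPolynomial.eval_C, hV]
    rw [h4]
    exact h3
  have mJ : MemLp (fun f : MW => MvPolynomial.eval (fun j => f (w j)) J) 2 γ := by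
    have h3 := ip hγ τ (2 * N) (fun m j => (c m * I ^ j / (j.factorial : ℂ)).im)
    have h4 : (fun f : MW => MvPolynomial.eval (fun j => f (w j)) J) = fun f =>
        ∑ m, ∑ j ∈ Finset.range (2 * N), (c m * I ^ j / (j.factorial : ℂ)).im * val (τ m) f ^ j := by
      funext f
      rw [hJ]
      unfold PJ
      simp only [map_sum, map_mul, map_pow, MvPolynomial.eval_C, hV]
    rw [h4]
    exact h3
  -- the estimate for the random wave
  obtain ⟨T, hT⟩ : ∃ T : ℝ, T = ∫ f, ‖∑ m, c m * eγ (τ m) f‖ ^ 2 ∂γ := ⟨_, rfl⟩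
  have hRJ : (∫ f : MW, MvPolynomial.eval (fun j => f (w j)) R ^ 2 ∂γ) +
      (∫ f : MW, MvPolynomial.eval (fun j => f (w j)) J ^ 2 ∂γ) ≤ 2 * T + 2 * Δ := by
    have iR := mR.integrable_sq
    have iJ := mJ.integrable_sq
    rw [← integral_add iR iJ, hT, hΔ]
    have iT : Integrable (fun f => ‖∑ m, c m * eγ (τ m) f‖ ^ 2) γ := by
      refine Integrable.of_bound (C := (∑ m, ‖c m‖) ^ 2) ?_ (Eventually.of_forall fun f => ?_)
      · refine (Measurable.aestronglyMeasurable ?_)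
        exact (Finset.measurable_fun_sum _ fun m _ =>
          (Pool.Agent.H992.LB.eγ_meas (τ m)).const_mul _).norm.pow_const 2
      · rw [Real.norm_eq_abs, abs_of_nonneg (sq_nonneg _)]
        refine pow_le_pow_left₀ (norm_nonneg _) (norm_sum_le_of_le _ fun m _ => ?_) 2
        rw [norm_mul, Pool.Agent.H992.LB.eγ_norm, mul_one]
    have iy : ∀ m, Integrable (fun f => n * (‖c m‖ ^ 2 / F ^ 2) *
        val (τ m) f ^ (2 * (2 * N))) γ := fun m => ((gv hγ (τ m) (2 * N)).1).const_mul _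
    have iS : Integrable (fun f => ∑ m, n * (‖c m‖ ^ 2 / F ^ 2) *
        val (τ m) f ^ (2 * (2 * N))) γ := integrable_finsetSum _ fun m _ => iy m
    have e1 : 2 * ∫ f, ‖∑ m, c m * eγ (τ m) f‖ ^ 2 ∂γ + 2 * ∑ m, n * (‖c m‖ ^ 2 / F ^ 2) *
        ∫ f, val (τ m) f ^ (2 * (2 * N)) ∂γ = ∫ f, (2 * ‖∑ m, c m * eγ (τ m) f‖ ^ 2 +
          2 * ∑ m, n * (‖c m‖ ^ 2 / F ^ 2) * val (τ m) f ^ (2 * (2 * N))) ∂γ := by
      rw [integral_add (iT.const_mul 2) (iS.const_mul 2), integral_const_mul, integral_const_mul,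
        integral_finsetSum _ fun m _ => iy m]
      congr 2
      refine Finset.sum_congr rfl fun m _ => ?_
      rw [integral_const_mul]
    rw [e1]
    refine integral_mono (iR.add iJ) ((iT.const_mul 2).add (iS.const_mul 2)) fun f => ?_
    show MvPolynomial.eval (fun j => f (w j)) R ^ 2 + MvPolynomial.eval (fun j => f (w j)) J ^ 2 ≤
      2 * ‖∑ m, c m * eγ (τ m) f‖ ^ 2 + 2 * ∑ m, n * (‖c m‖ ^ 2 / F ^ 2) *
        val (τ m) f ^ (2 * (2 * N))
    have e2 : MvPolynomial.eval (fun j => f (w j)) R ^ 2 +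
        MvPolynomial.eval (fun j => f (w j)) J ^ 2 = ‖PN c (2 * N) (fun m => val (τ m) f)‖ ^ 2 := by
      have e3 := eRJ (fun j => f (w j))
      simp only [hV] at e3
      rw [e3, Complex.sq_norm, Complex.normSq_add_mul_I]
    have e3 : ∑ m, c m * eγ (τ m) f = TT c (fun m => val (τ m) f) := rfl
    rw [e2, e3]
    have e4 := sq_TT c N (fun m => val (τ m) f)
    rw [← hF] at e4
    have e5 : ‖PN c (2 * N) (fun m => val (τ m) f)‖ ≤ ‖TT c (fun m => val (τ m) f)‖ +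
        ‖TT c (fun m => val (τ m) f) - PN c (2 * N) (fun m => val (τ m) f)‖ := by
      have := norm_sub_le (TT c (fun m => val (τ m) f))
        (TT c (fun m => val (τ m) f) - PN c (2 * N) (fun m => val (τ m) f))
      rwa [sub_sub_cancel] at this
    have e6 := norm_nonneg (PN c (2 * N) (fun m => val (τ m) f))
    have e7 : ‖PN c (2 * N) (fun m => val (τ m) f)‖ ^ 2 ≤ (‖TT c (fun m => val (τ m) f)‖ +
        ‖TT c (fun m => val (τ m) f) - PN c (2 * N) (fun m => val (τ m) f)‖) ^ 2 :=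
      pow_le_pow_left₀ e6 e5 2
    nlinarith [sq_nonneg (‖TT c (fun m => val (τ m) f)‖ -
      ‖TT c (fun m => val (τ m) f) - PN c (2 * N) (fun m => val (τ m) f)‖)]
  -- the choice of the small number
  obtain ⟨ε₁, hε₁⟩ : ∃ ε₁ : ℝ, ε₁ = ε / (2 * (4 + 2 * ∑ m, n * (‖c m‖ ^ 2 / F ^ 2))) := ⟨_, rfl⟩
  have hden : 0 < 4 + 2 * ∑ m, (n : ℝ) * (‖c m‖ ^ 2 / F ^ 2) := by
    have : 0 ≤ ∑ m, (n : ℝ) * (‖c m‖ ^ 2 / F ^ 2) := Finset.sum_nonneg fun m _ => by positivity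
    linarith
  have hε1 : 0 < ε₁ := by rw [hε₁]; positivity
  have hall := eventually_all.2 fun m : Fin n => key _ w (L m ^ (2 * N)) hw ε₁ hε1
  filter_upwards [key _ w R hw ε₁ hε1, key _ w J hw ε₁ hε1, hall] with l a b d
  obtain ⟨bψ, hbψ⟩ := hψ.2.1.exists_bound_of_continuous hψ.1.continuous
  have hmψ : Measurable fun p : ℂ × (ℝ × Bool) => ψ p.1 :=
    hψ.1.continuous.measurable.comp measurable_fst
  have iE : ∀ m, Integrable (fun p => (ψ p.1 : ℂ) * eX (lam l) (u l) (τ m) p) (P Ω) := by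
    intro m
    refine Integrable.of_bound (C := bψ) ?_ (Eventually.of_forall fun p => ?_)
    · exact ((Complex.measurable_ofReal.comp hmψ).mul (eX_meas (H.sm l) (τ m))).aestronglyMeasurable
    · rw [norm_mul, eX_norm, mul_one, Complex.norm_real]
      exact hbψ p.1
  have e1 : ∑ m, c m * ∫ p, (ψ p.1 : ℂ) * eX (lam l) (u l) (τ m) p ∂(P Ω) =
      ∫ p, (ψ p.1 : ℂ) * TT c (fun m => (SX (lam l) (u l) (τ m) p).re) ∂(P Ω) := by
    have e2 : ∀ m, c m * ∫ p, (ψ p.1 : ℂ) * eX (lam l) (u l) (τ m) p ∂(P Ω) =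
        ∫ p, c m * ((ψ p.1 : ℂ) * eX (lam l) (u l) (τ m) p) ∂(P Ω) := fun m =>
      (integral_const_mul _ _).symm
    rw [Finset.sum_congr rfl fun m _ => e2 m, ← integral_finsetSum _ fun m _ => (iE m).const_mul _]
    refine integral_congr_ae (Eventually.of_forall fun p => ?_)
    show ∑ m, c m * ((ψ p.1 : ℂ) * eX (lam l) (u l) (τ m) p) =
      (ψ p.1 : ℂ) * ∑ m, c m * Complex.exp (I * (((SX (lam l) (u l) (τ m) p).re : ℝ) : ℂ))
    rw [Finset.mul_sum]
    refine Finset.sum_congr rfl fun m _ => ?_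
    unfold eX
    ring
  have iTT : Integrable (fun p => (ψ p.1 : ℂ) *
      TT c (fun m => (SX (lam l) (u l) (τ m) p).re)) (P Ω) := by
    refine (integrable_finsetSum Finset.univ fun m _ => (iE m).const_mul (c m)).congr
      (Eventually.of_forall fun p => ?_)
    show ∑ m, c m * ((ψ p.1 : ℂ) * eX (lam l) (u l) (τ m) p) =
      (ψ p.1 : ℂ) * ∑ m, c m * Complex.exp (I * (((SX (lam l) (u l) (τ m) p).re : ℝ) : ℂ))
    rw [Finset.mul_sum]
    refine Finset.sum_congr rfl fun m _ => ?_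
    unfold eX
    ring
  have ePN : ∀ p, (ψ p.1 : ℂ) * PN c (2 * N) (fun m => (SX (lam l) (u l) (τ m) p).re) =
      ((ψ p.1 * MvPolynomial.eval (fun j => Xr (lam l) (u l) (w j) p) R : ℝ) : ℂ) +
        ((ψ p.1 * MvPolynomial.eval (fun j => Xr (lam l) (u l) (w j) p) J : ℝ) : ℂ) * I := by
    intro p
    have e3 := eRJ (fun j => Xr (lam l) (u l) (w j) p)
    simp only [hX] at e3
    rw [e3]
    push_cast
    ring
  have iR' : Integrable (fun p => ((ψ p.1 *
      MvPolynomial.eval (fun j => Xr (lam l) (u l) (w j) p) R : ℝ) : ℂ)) (P Ω) := a.1.ofReal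
  have iJ' : Integrable (fun p => ((ψ p.1 *
      MvPolynomial.eval (fun j => Xr (lam l) (u l) (w j) p) J : ℝ) : ℂ) * I) (P Ω) :=
    (b.1.ofReal).mul_const I
  have iPN : Integrable (fun p => (ψ p.1 : ℂ) *
      PN c (2 * N) (fun m => (SX (lam l) (u l) (τ m) p).re)) (P Ω) := by
    refine (iR'.add iJ').congr (Eventually.of_forall fun p => ?_)
    exact (ePN p).symm
  have e2 : ∫ p, (ψ p.1 : ℂ) * PN c (2 * N) (fun m => (SX (lam l) (u l) (τ m) p).re) ∂(P Ω) =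
      ((∫ p, ψ p.1 * MvPolynomial.eval (fun j => Xr (lam l) (u l) (w j) p) R ∂(P Ω) : ℝ) : ℂ) +
      ((∫ p, ψ p.1 * MvPolynomial.eval (fun j => Xr (lam l) (u l) (w j) p) J ∂(P Ω) : ℝ) : ℂ) *
        I := by
    rw [integral_congr_ae (Eventually.of_forall ePN), integral_add iR' iJ', integral_mul_const,
      integral_complex_ofReal, integral_complex_ofReal]
  have hd1 : ∀ m, Integrable (fun p => ψ p.1 * (SX (lam l) (u l) (τ m) p).re ^ (2 * N)) (P Ω) := by
    intro m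
    have := (d m).1
    simp only [map_pow, hX] at this
    exact this
  have hd2 : ∀ m, (∫ p, ψ p.1 * (SX (lam l) (u l) (τ m) p).re ^ (2 * N) ∂(P Ω)) ^ 2 ≤
      C₁ * (∫ f : MW, val (τ m) f ^ (2 * (2 * N)) ∂γ) + ε₁ := by
    intro m
    have h3 := (d m).2
    simp only [map_pow, hX, hV] at h3
    have h4 : ∀ f : MW, (val (τ m) f ^ (2 * N)) ^ 2 = val (τ m) f ^ (2 * (2 * N)) := by
      intro f
      rw [← pow_mul, mul_comm (2 * N) 2]
    simp only [h4] at h3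
    exact h3
  have e3 : ‖∫ p, ((ψ p.1 : ℂ) * TT c (fun m => (SX (lam l) (u l) (τ m) p).re) -
      (ψ p.1 : ℂ) * PN c (2 * N) (fun m => (SX (lam l) (u l) (τ m) p).re)) ∂(P Ω)‖ ≤
      ∑ m, ‖c m‖ / F * ∫ p, ψ p.1 * (SX (lam l) (u l) (τ m) p).re ^ (2 * N) ∂(P Ω) := by
    have e4 : ∑ m, ‖c m‖ / F * ∫ p, ψ p.1 * (SX (lam l) (u l) (τ m) p).re ^ (2 * N) ∂(P Ω) =
        ∫ p, ∑ m, ‖c m‖ / F * (ψ p.1 * (SX (lam l) (u l) (τ m) p).re ^ (2 * N)) ∂(P Ω) := by
      rw [integral_finsetSum _ fun m _ => (hd1 m).const_mul _]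
      exact Finset.sum_congr rfl fun m _ => (integral_const_mul _ _).symm
    rw [e4]
    refine norm_integral_le_of_norm_le
      (integrable_finsetSum _ fun m _ => (hd1 m).const_mul _) (Eventually.of_forall fun p => ?_)
    rw [← mul_sub, norm_mul, Complex.norm_real, Real.norm_eq_abs, abs_of_nonneg (h0 p.1)]
    have e5 := TT_sub c N (fun m => (SX (lam l) (u l) (τ m) p).re)
    rw [← hF] at e5
    calc ψ p.1 * ‖_‖ ≤ ψ p.1 * ∑ m, ‖c m‖ / F * (SX (lam l) (u l) (τ m) p).re ^ (2 * N) :=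
          mul_le_mul_of_nonneg_left e5 (h0 p.1)
      _ = _ := by
        rw [Finset.mul_sum]
        exact Finset.sum_congr rfl fun m _ => by ring
  have e4 : ‖∫ p, ((ψ p.1 : ℂ) * TT c (fun m => (SX (lam l) (u l) (τ m) p).re) -
      (ψ p.1 : ℂ) * PN c (2 * N) (fun m => (SX (lam l) (u l) (τ m) p).re)) ∂(P Ω)‖ ^ 2 ≤
      C₁ * Δ + (∑ m, n * (‖c m‖ ^ 2 / F ^ 2)) * ε₁ := by
    refine (pow_le_pow_left₀ (norm_nonneg _) e3 2).trans ?_
    refine (sq_sum_le_card_mul_sum_sq).trans ?_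
    rw [Finset.card_univ, Fintype.card_fin, hΔ, Finset.mul_sum, Finset.mul_sum, Finset.sum_mul,
      ← Finset.sum_add_distrib]
    refine Finset.sum_le_sum fun m _ => ?_
    rw [mul_pow, div_pow]
    calc (n : ℝ) * (‖c m‖ ^ 2 / F ^ 2 *
          (∫ p, ψ p.1 * (SX (lam l) (u l) (τ m) p).re ^ (2 * N) ∂(P Ω)) ^ 2)
        ≤ (n : ℝ) * (‖c m‖ ^ 2 / F ^ 2 *
          (C₁ * (∫ f : MW, val (τ m) f ^ (2 * (2 * N)) ∂γ) + ε₁)) := by
          have := hd2 m
          gcongr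
      _ = _ := by ring
  rw [e1, ← hT]
  have e5 : ‖∫ p, (ψ p.1 : ℂ) * PN c (2 * N) (fun m => (SX (lam l) (u l) (τ m) p).re) ∂(P Ω)‖ ^ 2 ≤
      C₁ * (2 * T + 2 * Δ) + 2 * ε₁ := by
    rw [e2, Complex.sq_norm, Complex.normSq_add_mul_I]
    have e6 := mul_le_mul_of_nonneg_left hRJ hC0
    have e7 := a.2
    have e8 := b.2
    linarith
  have e6 : ‖∫ p, (ψ p.1 : ℂ) * TT c (fun m => (SX (lam l) (u l) (τ m) p).re) ∂(P Ω)‖ ≤
      ‖∫ p, (ψ p.1 : ℂ) * PN c (2 * N) (fun m => (SX (lam l) (u l) (τ m) p).re) ∂(P Ω)‖ +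
      ‖∫ p, ((ψ p.1 : ℂ) * TT c (fun m => (SX (lam l) (u l) (τ m) p).re) -
      (ψ p.1 : ℂ) * PN c (2 * N) (fun m => (SX (lam l) (u l) (τ m) p).re)) ∂(P Ω)‖ := by
    rw [integral_sub iTT iPN]
    have := norm_add_le
      (∫ p, (ψ p.1 : ℂ) * PN c (2 * N) (fun m => (SX (lam l) (u l) (τ m) p).re) ∂(P Ω))
      (∫ p, (ψ p.1 : ℂ) * TT c (fun m => (SX (lam l) (u l) (τ m) p).re) ∂(P Ω) -
      ∫ p, (ψ p.1 : ℂ) * PN c (2 * N) (fun m => (SX (lam l) (u l) (τ m) p).re) ∂(P Ω))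
    rwa [add_sub_cancel] at this
  have e7 := pow_le_pow_left₀ (norm_nonneg _) e6 2
  have e8 : η * (12 * C₁ + 1) = ε := by
    rw [hη]
    have : 12 * C₁ + 1 ≠ 0 := by positivity
    field_simp
  have e9 : ε₁ * (4 + 2 * ∑ m, n * (‖c m‖ ^ 2 / F ^ 2)) = ε / 2 := by
    rw [hε₁]
    field_simp
  have e10 : C₁ * Δ ≤ C₁ * η := mul_le_mul_of_nonneg_left hΔη hC0
  nlinarith [sq_nonneg (‖∫ p, (ψ p.1 : ℂ) *
      PN c (2 * N) (fun m => (SX (lam l) (u l) (τ m) p).re) ∂(P Ω)‖ -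
      ‖∫ p, ((ψ p.1 : ℂ) * TT c (fun m => (SX (lam l) (u l) (τ m) p).re) -
      (ψ p.1 : ℂ) * PN c (2 * N) (fun m => (SX (lam l) (u l) (τ m) p).re)) ∂(P Ω)‖)]

end Pool.Agent.H962.PM
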